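import Pool.Agent.Q125.PV.Stm
import Mathlib.Logic.Equiv.Fin.Basic
import Mathlib.Tactic.Linarith
import Mathlib.Tactic.Ring
import Mathlib.Tactic.Positivity

/-! # Project PV, job CHO: the choice of the chains that are kept -/

set_option autoImplicit false

namespace Pool.Agent.Q275.PV

open Finset Pool.Agent.Q125.PV

section
variable {V : Type} [DecidableEq V]

/-- the vertices of a chain -/
theorem chain_cases {r : V → V → Prop} {X : Finset V} {ℓ M : ℕ} {A B : Fin M → Finset V}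
    {m : Fin M → ℕ} {P : Fin M → ℕ → V} (hS : Skel r X ℓ A B m P) (c : Fin M) (v : V)
    (hv : v ∈ A c ∪ B c ∪ vtc m P c) :
    v ∈ A c ∨ v ∈ B c ∨ ∃ j, 1 ≤ j ∧ j < m c ∧ v = P c j := by
  rcases Finset.mem_union.1 hv with h | h
  · rcases Finset.mem_union.1 h with h | h
    · exact Or.inl h
    · exact Or.inr (Or.inl h)
  · obtain ⟨j, hj, rfl⟩ := Finset.mem_image.1 h
    rw [Finset.mem_range] at hj
    rcases Nat.eq_zero_or_pos j with h0 | h0
    · subst h0
      exact Or.inl (hS.pA c)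
    · by_cases h1 : j = m c
      · subst h1
        exact Or.inr (Or.inl (hS.pB c))
      · exact Or.inr (Or.inr ⟨j, h0, by omega, rfl⟩)

theorem chain_X {r : V → V → Prop} {X : Finset V} {ℓ M : ℕ} {A B : Fin M → Finset V}
    {m : Fin M → ℕ} {P : Fin M → ℕ → V} (hS : Skel r X ℓ A B m P) (c : Fin M) (v : V)
    (hv : v ∈ A c ∪ B c ∪ vtc m P c) : v ∉ X := by
  rcases chain_cases hS c v hv with h | h | ⟨j, h1, h2, rfl⟩
  · exact Finset.disjoint_left.1 (hS.dAX c) h
  · exact Finset.disjoint_left.1 (hS.dBX c) h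
  · intro h3
    exact hS.mid c j h1 h2 (Finset.mem_union_left _ (Finset.mem_union_left _ h3))

theorem chain_uniq {r : V → V → Prop} {X : Finset V} {ℓ M : ℕ} {A B : Fin M → Finset V}
    {m : Fin M → ℕ} {P : Fin M → ℕ → V} (hS : Skel r X ℓ A B m P) (c c' : Fin M) (v : V)
    (hv : v ∈ A c ∪ B c ∪ vtc m P c) (hv' : v ∈ A c' ∪ B c' ∪ vtc m P c') : c = c' := by
  by_contra hne
  have hA : ∀ (d d' : Fin M) (j : ℕ), 1 ≤ j → j < m d' → P d' j ∉ A d := by
    intro d d' j h1 h2 h3
    exact hS.mid d' j h1 h2 (Finset.mem_union_left _ (Finset.mem_union_right _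
      (Finset.mem_biUnion.2 ⟨d, Finset.mem_univ _, h3⟩)))
  have hB : ∀ (d d' : Fin M) (j : ℕ), 1 ≤ j → j < m d' → P d' j ∉ B d := by
    intro d d' j h1 h2 h3
    exact hS.mid d' j h1 h2 (Finset.mem_union_right _
      (Finset.mem_biUnion.2 ⟨d, Finset.mem_univ _, h3⟩))
  rcases chain_cases hS c v hv with h | h | ⟨j, h1, h2, h3⟩ <;>
    rcases chain_cases hS c' v hv' with h' | h' | ⟨j', h1', h2', h3'⟩
  · exact Finset.disjoint_left.1 (hS.dA c c' hne) h h'
  · exact Finset.disjoint_left.1 (hS.dAB c c') h h'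
  · exact hA c c' j' h1' h2' (h3' ▸ h)
  · exact Finset.disjoint_left.1 (hS.dAB c' c) h' h
  · exact Finset.disjoint_left.1 (hS.dB c c' hne) h h'
  · exact hB c c' j' h1' h2' (h3' ▸ h)
  · exact hA c' c j h1 h2 (h3 ▸ h')
  · exact hB c' c j h1 h2 (h3 ▸ h')
  · exact hne (hS.inj c c' j j' (by omega) (by omega) (h3.symm.trans h3')).1

/-- balanced maps -/
theorem exists_balanced {M t k : ℕ} (ht : 1 ≤ t) (K : Finset (Fin M)) (hK : K.card = t * k) :
    ∃ g : Fin M → Fin t, ∀ i, k ≤ (K.filter (fun c => g c = i)).card := by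
  classical
  have hc : Fintype.card {c // c ∈ K} = Fintype.card (Fin t × Fin k) := by
    rw [Fintype.card_coe, hK, Fintype.card_prod, Fintype.card_fin, Fintype.card_fin]
  obtain ⟨e⟩ : Nonempty ({c // c ∈ K} ≃ Fin t × Fin k) := ⟨Fintype.equivOfCardEq hc⟩
  refine ⟨fun c => if h : c ∈ K then (e ⟨c, h⟩).1 else ⟨0, ht⟩, fun i => ?_⟩
  have h1 : (Finset.univ : Finset (Fin k)).card ≤
      (K.filter (fun c => (if h : c ∈ K then (e ⟨c, h⟩).1 else ⟨0, ht⟩) = i)).card := by
    refine Finset.card_le_card_of_injOn (fun j => ((e.symm (i, j)).1 : Fin M)) ?_ ?_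
    · intro j _
      refine Finset.mem_coe.2 (Finset.mem_filter.2 ⟨(e.symm (i, j)).2, ?_⟩)
      rw [dif_pos (e.symm (i, j)).2]
      have h2 : (⟨((e.symm (i, j)).1 : Fin M), (e.symm (i, j)).2⟩ : {c // c ∈ K}) =
        e.symm (i, j) := rfl
      rw [h2, e.apply_symm_apply]
    · intro j _ j' _ h
      have h3 := e.symm.injective (Subtype.ext h)
      exact (Prod.mk.inj h3).2
  rwa [Finset.card_univ, Fintype.card_fin] at h1

end

/-- Job CHO -/
theorem t_CHO : S_CNF → S_HVY → S_CHO := by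
  intro hCNF hHVY V _ _ r _ k t M ℓ N x A B m P hk ht hℓ hM hN hx hS hr1 hr2
  classical
  obtain ⟨X, hX⟩ : ∃ X, X = Finset.univ.image x := ⟨_, rfl⟩
  rw [← hX] at hS ⊢
  obtain ⟨Y, hY⟩ : ∃ Y, Y = X ∪ Finset.univ.biUnion A ∪ Finset.univ.biUnion B := ⟨_, rfl⟩
  obtain ⟨R, hR⟩ : ∃ R, R = 14 * (k * M * ℓ) := ⟨_, rfl⟩
  rw [← hY, ← hR]
  have hXc : X.card ≤ t := by
    rw [hX]
    refine Finset.card_image_le.trans ?_
    rw [Finset.card_univ, Fintype.card_fin]
  have htk : t ≤ t * k := Nat.le_mul_of_pos_right t hk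
  have htM : t ≤ M := by
    have h1 : t * k ≤ (2 * (4 * ℓ + 8) ^ 2 + 3 * (4 * ℓ + 8) + 1) * (t * k) :=
      Nat.le_mul_of_pos_left _ (by positivity)
    omega
  have hM1 : 1 ≤ M := le_trans ht htM
  have hkR : k ≤ R := by
    rw [hR]
    have h1 : k ≤ k * M := Nat.le_mul_of_pos_right k hM1
    have h2 : k * M ≤ k * M * ℓ := Nat.le_mul_of_pos_right _ hℓ
    omega
  -- heavy chains
  have key : ∀ (r' : V → V → Prop) [DecidableRel r'], (∀ u, N ≤ (outN r' u).card) →
      ∃ H : V → Finset (Fin M), (∀ u, (H u).card ≤ 1) ∧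
        ∀ u, R ≤ (outN r' u ∩ ord Y m P).card ∨ ∃ h ∈ H u, R ≤ (outN r' u ∩ innc m P h).card := by
    intro r' _ hr'
    have h1 : ∀ u, ∃ H : Finset (Fin M), H.card ≤ 1 ∧
        (R ≤ (outN r' u ∩ ord Y m P).card ∨ ∃ h ∈ H, R ≤ (outN r' u ∩ innc m P h).card) := by
      intro u
      rcases hHVY V r r' k M ℓ N X A B m P hS hk hM1 hℓ (hXc.trans htM) hN u (hr' u) with h | ⟨h, hh⟩
      · refine ⟨∅, by simp, Or.inl ?_⟩
        rw [hY, hR]
        exact h
      · refine ⟨{h}, by simp, Or.inr ⟨h, Finset.mem_singleton_self _, ?_⟩⟩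
        rw [hR]
        exact hh
    choose H hH1 hH2 using h1
    exact ⟨H, hH1, hH2⟩
  obtain ⟨H1, hH1c, hH1⟩ := key r hr1
  obtain ⟨H2, hH2c, hH2⟩ := key (rv r) hr2
  obtain ⟨Hs, hHs⟩ : ∃ Hs : V → Finset (Fin M), ∀ u, Hs u = H1 u ∪ H2 u := ⟨_, fun _ => rfl⟩
  have hHsc : ∀ u, (Hs u).card ≤ 2 := by
    intro u
    rw [hHs]
    have h1 := hH1c u
    have h2 := hH2c u
    have h3 := Finset.card_union_le (H1 u) (H2 u)
    omega
  have hbU : ∀ T : Finset V, (T.biUnion Hs).card ≤ 2 * T.card := by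
    intro T
    refine Finset.card_biUnion_le.trans ?_
    refine (Finset.sum_le_sum (fun u _ => hHsc u)).trans ?_
    rw [Finset.sum_const, smul_eq_mul, mul_comm]
  -- special vertices of the chains
  obtain ⟨Sp, hSp⟩ : ∃ Sp : Fin M → Finset V, ∀ c, Sp c =
      A c ∪ B c ∪ {P c 1, P c 2, P c (m c - 1), P c (m c - 2)} := ⟨_, fun _ => rfl⟩
  have hSpc : ∀ c, (Sp c).card ≤ 2 * ℓ + 4 := by
    intro c
    rw [hSp]
    have h1 := Finset.card_union_le (A c ∪ B c) {P c 1, P c 2, P c (m c - 1), P c (m c - 2)}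
    have h2 := Finset.card_union_le (A c) (B c)
    have h3 := hS.cA c
    have h4 := hS.cB c
    have h5 : ({P c 1, P c 2, P c (m c - 1), P c (m c - 2)} : Finset V).card ≤ 4 :=
      Finset.card_le_four
    omega
  obtain ⟨K, hKc, hKF, hK1, hK2⟩ := hCNF M (4 * ℓ + 8) t k (fun c => (Sp c).biUnion Hs)
    (X.biUnion Hs) (fun c => by
      have h1 := hbU (Sp c)
      have h2 := hSpc c
      omega) (by
      have h1 := hbU X
      omega) hM
  obtain ⟨g, hg⟩ := exists_balanced ht K hKc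
  -- the colours of the chains
  obtain ⟨φ, hφ1, hφ2⟩ : ∃ φ : Fin M → Fin t, (∀ c ∈ K, φ c = g c) ∧
      ∀ c, ∀ h ∈ (Sp c).biUnion Hs, h ∈ K → φ c = g h := by
    have h1 : ∀ c, ∃ a : Fin t, (c ∈ K → a = g c) ∧ ∀ h ∈ (Sp c).biUnion Hs, h ∈ K → a = g h := by
      intro c
      by_cases hc : c ∈ K
      · refine ⟨g c, fun _ => rfl, fun h hh hhK => ?_⟩
        have h2 := hK1 c hc (Finset.mem_inter.2 ⟨hh, hhK⟩)
        rw [Finset.mem_singleton.1 h2]
      · by_cases h3 : ∃ h, h ∈ (Sp c).biUnion Hs ∧ h ∈ K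
        · obtain ⟨h, hh, hhK⟩ := h3
          refine ⟨g h, fun h4 => absurd h4 hc, fun h' hh' hhK' => ?_⟩
          have h5 := hK2 c
          rw [Finset.card_le_one] at h5
          have h6 : ∀ d, d ∈ (Sp c).biUnion Hs → d ∈ K →
              d ∈ ((Sp c).biUnion Hs ∩ K).erase c := fun d hd hdK =>
            Finset.mem_erase.2 ⟨fun h => hc (h ▸ hdK), Finset.mem_inter.2 ⟨hd, hdK⟩⟩
          rw [h5 h (h6 h hh hhK) h' (h6 h' hh' hhK')]
        · exact ⟨⟨0, ht⟩, fun h4 => absurd h4 hc, fun h' hh' hhK' => absurd ⟨h', hh', hhK'⟩ h3⟩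
    choose φ hφ using h1
    exact ⟨φ, fun c => (hφ c).1, fun c => (hφ c).2⟩
  obtain ⟨f₀, hf1, hf2⟩ : ∃ f₀ : V → Fin t, (∀ i, f₀ (x i) = i) ∧
      ∀ c, ∀ v ∈ A c ∪ B c ∪ vtc m P c, f₀ v = φ c := by
    have h1 : ∀ v, ∃ a : Fin t, (∀ i, x i = v → a = i) ∧
        ∀ c, v ∈ A c ∪ B c ∪ vtc m P c → a = φ c := by
      intro v
      by_cases h2 : ∃ i, x i = v
      · obtain ⟨i, rfl⟩ := h2
        refine ⟨i, fun j hj => hx hj.symm, fun c hc => ?_⟩
        exfalso
        refine chain_X hS c _ hc ?_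
        rw [hX]
        exact Finset.mem_image_of_mem _ (Finset.mem_univ _)
      · by_cases h3 : ∃ c, v ∈ A c ∪ B c ∪ vtc m P c
        · obtain ⟨c, hc⟩ := h3
          refine ⟨φ c, fun i hi => absurd ⟨i, hi⟩ h2, fun c' hc' => ?_⟩
          rw [chain_uniq hS c c' v hc hc']
        · exact ⟨⟨0, ht⟩, fun i hi => absurd ⟨i, hi⟩ h2, fun c hc => absurd ⟨c, hc⟩ h3⟩
    choose f₀ hf using h1
    exact ⟨f₀, fun i => (hf (x i)).1 i rfl, fun c v hv => (hf v).2 c hv⟩
  obtain ⟨F, hF⟩ : ∃ F : Finset V, F = ord Y m P ∪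
      (Finset.univ.filter (fun c => c ∉ K)).biUnion (innc m P) := ⟨_, rfl⟩
  have hinn : ∀ c, innc m P c ⊆ vtc m P c := by
    intro c
    exact Finset.image_subset_image (Finset.filter_subset _ _)
  have hordF : ord Y m P ⊆ F := by
    rw [hF]
    exact Finset.subset_union_left
  have hinnF : ∀ c, c ∉ K → innc m P c ⊆ F := by
    intro c hc
    rw [hF]
    intro v hv
    exact Finset.mem_union_right _ (Finset.mem_biUnion.2 ⟨c, Finset.mem_filter.2
      ⟨Finset.mem_univ _, hc⟩, hv⟩)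
  have hWF : ∀ c ∈ K, ∀ v ∈ A c ∪ B c ∪ vtc m P c, v ∉ F := by
    intro c hc v hv hvF
    rw [hF] at hvF
    rcases Finset.mem_union.1 hvF with h | h
    · have h1 := (Finset.mem_sdiff.1 h).2
      apply h1
      rcases Finset.mem_union.1 hv with h2 | h2
      · refine Finset.mem_union_left _ ?_
        rw [hY]
        rcases Finset.mem_union.1 h2 with h3 | h3
        · exact Finset.mem_union_left _ (Finset.mem_union_right _
            (Finset.mem_biUnion.2 ⟨c, Finset.mem_univ _, h3⟩))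
        · exact Finset.mem_union_right _ (Finset.mem_biUnion.2 ⟨c, Finset.mem_univ _, h3⟩)
      · exact Finset.mem_union_right _ (Finset.mem_biUnion.2 ⟨c, Finset.mem_univ _, h2⟩)
    · obtain ⟨c', hc', hv'⟩ := Finset.mem_biUnion.1 h
      have h2 := chain_uniq hS c c' v hv (Finset.mem_union_right _ (hinn c' hv'))
      rw [← h2] at hc'
      exact (Finset.mem_filter.1 hc').2 hc
  -- the last clause for one direction
  have last : ∀ (r' : V → V → Prop) [DecidableRel r'] (H : V → Finset (Fin M)),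
      (∀ u, H u ⊆ Hs u) → (∀ u, R ≤ (outN r' u ∩ ord Y m P).card ∨
        ∃ h ∈ H u, R ≤ (outN r' u ∩ innc m P h).card) →
      ∀ u, u ∉ ord Y m P ∪ inn m P → HvC r' k R m P F f₀ u := by
    intro r' _ H hH hHu u hu
    rcases hHu u with h1 | ⟨h, hh, h1⟩
    · left
      exact h1.trans (Finset.card_le_card (Finset.inter_subset_inter_left hordF))
    · by_cases hhK : h ∈ K
      · right
        have hfu : f₀ u = g h := by
          have hu1 : u ∈ Y ∪ vts m P := by
            by_contra h2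
            exact hu (Finset.mem_union_left _ (Finset.mem_sdiff.2 ⟨Finset.mem_univ _, h2⟩))
          have hu2 : u ∉ X := by
            intro hux
            exact Finset.disjoint_left.1 hKF hhK (Finset.mem_biUnion.2 ⟨u, hux, hH u hh⟩)
          have hu3 : ∃ c, u ∈ A c ∪ B c ∪ vtc m P c := by
            rcases Finset.mem_union.1 hu1 with h2 | h2
            · rw [hY] at h2
              rcases Finset.mem_union.1 h2 with h3 | h3
              · rcases Finset.mem_union.1 h3 with h4 | h4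
                · exact absurd h4 hu2
                · obtain ⟨c, -, hc⟩ := Finset.mem_biUnion.1 h4
                  exact ⟨c, Finset.mem_union_left _ (Finset.mem_union_left _ hc)⟩
              · obtain ⟨c, -, hc⟩ := Finset.mem_biUnion.1 h3
                exact ⟨c, Finset.mem_union_left _ (Finset.mem_union_right _ hc)⟩
            · obtain ⟨c, -, hc⟩ := Finset.mem_biUnion.1 h2
              exact ⟨c, Finset.mem_union_right _ hc⟩
          obtain ⟨c, hc⟩ := hu3
          have hu4 : u ∈ Sp c := by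
            rw [hSp]
            rcases chain_cases hS c u hc with h2 | h2 | ⟨j, hj1, hj2, rfl⟩
            · exact Finset.mem_union_left _ (Finset.mem_union_left _ h2)
            · exact Finset.mem_union_left _ (Finset.mem_union_right _ h2)
            · refine Finset.mem_union_right _ ?_
              have h3 : ¬ (3 ≤ j ∧ j + 3 ≤ m c) := by
                intro h4
                refine hu (Finset.mem_union_right _ (Finset.mem_biUnion.2 ⟨c, Finset.mem_univ _,
                  Finset.mem_image.2 ⟨j, Finset.mem_filter.2 ⟨Finset.mem_range.2 (by omega), h4⟩,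
                    rfl⟩⟩))
              have h5 : j = 1 ∨ j = 2 ∨ j = m c - 1 ∨ j = m c - 2 := by omega
              rcases h5 with h5 | h5 | h5 | h5
              · rw [h5]; simp
              · rw [h5]; simp
              · rw [h5]; simp
              · rw [h5]; simp
          rw [hf2 c u hc, hφ2 c h (Finset.mem_biUnion.2 ⟨u, hu4, hH u hh⟩) hhK]
        refine le_trans (hkR.trans h1) (Finset.card_le_card ?_)
        intro v hv
        obtain ⟨hv1, hv2⟩ := Finset.mem_inter.1 hv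
        have hv3 : v ∈ A h ∪ B h ∪ vtc m P h := Finset.mem_union_right _ (hinn h hv2)
        refine Finset.mem_filter.2 ⟨Finset.mem_inter.2 ⟨hv1, Finset.mem_biUnion.2
          ⟨h, Finset.mem_univ _, hv2⟩⟩, hWF h hhK v hv3, ?_⟩
        rw [hf2 h v hv3, hφ1 h hhK, hfu]
      · left
        exact h1.trans (Finset.card_le_card (Finset.inter_subset_inter_left (hinnF h hhK)))
  refine ⟨K, g, f₀, F, hf1, hg, fun c hc v hv => ⟨hWF c hc v hv, ?_⟩, ?_, hordF, fun u hu =>
    ⟨last r H1 (fun u => ?_) hH1 u hu, last (rv r) H2 (fun u => ?_) hH2 u hu⟩⟩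
  · rw [hf2 c v hv, hφ1 c hc]
  · rw [hF]
    refine Finset.union_subset_union_right ?_
    intro v hv
    obtain ⟨c, -, hc⟩ := Finset.mem_biUnion.1 hv
    exact Finset.mem_biUnion.2 ⟨c, Finset.mem_univ _, hc⟩
  · rw [hHs]
    exact Finset.subset_union_left
  · rw [hHs]
    exact Finset.subset_union_right

end Pool.Agent.Q275.PV
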