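import Pool.Agent.Q125.PV.Stm
import Mathlib.Data.Fintype.BigOperators
import Mathlib.Data.Real.Basic
import Mathlib.Algebra.BigOperators.Field
import Mathlib.Tactic.Linarith
import Mathlib.Tactic.Ring
import Mathlib.Tactic.FieldSimp
import Mathlib.Tactic.Positivity

/-! # Project PV, job RND: the union bound over all colourings -/

set_option autoImplicit false

namespace Pool.Agent.Q275.PV

open Finset Pool.Agent.Q125.PV

/-- disjoint blocks -/
theorem blocks {V : Type} [DecidableEq V] (e : ℕ) : ∀ (k : ℕ) (D : Finset V), k * e ≤ D.card →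
    ∃ E : ℕ → Finset V, (∀ j, j < k → E j ⊆ D ∧ (E j).card = e) ∧
      ∀ j j', j < k → j' < k → j ≠ j' → Disjoint (E j) (E j') := by
  intro k
  induction k with
  | zero =>
    intro D _
    exact ⟨fun _ => ∅, fun j hj => absurd hj (Nat.not_lt_zero _),
      fun j _ hj => absurd hj (Nat.not_lt_zero _)⟩
  | succ k ih =>
    intro D hD
    have hD' : k * e + e ≤ D.card := by
      rw [← Nat.succ_mul]
      exact hD
    obtain ⟨B, hB, hBc⟩ := Finset.exists_subset_card_eq (s := D) (n := e) (by omega)
    obtain ⟨E, hE, hEd⟩ := ih (D \ B) (by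
      rw [Finset.card_sdiff_of_subset hB, hBc]
      omega)
    refine ⟨fun j => if j = k then B else E j, ?_, ?_⟩
    · intro j hj
      by_cases h : j = k
      · simp only [h, if_true]
        exact ⟨hB, hBc⟩
      · simp only [h, if_false]
        obtain ⟨h1, h2⟩ := hE j (by omega)
        exact ⟨h1.trans Finset.sdiff_subset, h2⟩
    · intro j j' hj hj' hjj
      by_cases h : j = k
      · have h' : ¬ j' = k := by omega
        simp only [h, h', if_true, if_false]
        have h1 := (hE j' (by omega)).1
        exact (Finset.disjoint_of_subset_left h1 Finset.sdiff_disjoint).symm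
      · by_cases h' : j' = k
        · simp only [h, h', if_true, if_false]
          have h1 := (hE j (by omega)).1
          exact Finset.disjoint_of_subset_left h1 Finset.sdiff_disjoint
        · simp only [h, h', if_false]
          exact hEd j j' (by omega) (by omega) hjj

/-- the number of colourings avoiding `a` on `B` -/
theorem card_avoid {V : Type} [Fintype V] [DecidableEq V] (t : ℕ) (ht : 1 ≤ t) (B : Finset V)
    (a : Fin t) :
    (((Finset.univ : Finset (V → Fin t)).filter (fun f => ∀ v ∈ B, f v ≠ a)).card : ℝ) =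
      (t : ℝ) ^ Fintype.card V * (1 - 1 / (t : ℝ)) ^ B.card := by
  classical
  have h1 : ((Finset.univ : Finset (V → Fin t)).filter (fun f => ∀ v ∈ B, f v ≠ a)) =
      Fintype.piFinset (fun v => if v ∈ B then Finset.univ.erase a else Finset.univ) := by
    ext f
    rw [Finset.mem_filter, Fintype.mem_piFinset]
    constructor
    · rintro ⟨-, h⟩ v
      split_ifs with hv
      · exact Finset.mem_erase.2 ⟨h v hv, Finset.mem_univ _⟩
      · exact Finset.mem_univ _
    · intro h
      refine ⟨Finset.mem_univ _, fun v hv => ?_⟩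
      have h2 := h v
      rw [if_pos hv] at h2
      exact (Finset.mem_erase.1 h2).1
  have h2 : ∀ v : V, ((if v ∈ B then Finset.univ.erase a else Finset.univ : Finset (Fin t)).card : ℝ)
      = if v ∈ B then (t : ℝ) - 1 else t := by
    intro v
    split_ifs
    · rw [Finset.card_erase_of_mem (Finset.mem_univ _), Finset.card_univ, Fintype.card_fin,
        Nat.cast_sub ht, Nat.cast_one]
    · rw [Finset.card_univ, Fintype.card_fin]
  have ht0 : (t : ℝ) ≠ 0 := by
    have : (0 : ℝ) < t := by exact_mod_cast ht
    exact this.ne'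
  rw [h1, Fintype.card_piFinset, Nat.cast_prod, Finset.prod_congr rfl (fun v _ => h2 v)]
  have h3 : ∀ v : V, (if v ∈ B then (t : ℝ) - 1 else t) =
      t * (if v ∈ B then (1 - 1 / (t : ℝ)) else 1) := by
    intro v
    split_ifs
    · field_simp
    · rw [mul_one]
  rw [Finset.prod_congr rfl (fun v _ => h3 v), Finset.prod_mul_distrib, Finset.prod_const,
    Finset.card_univ, Finset.prod_ite_mem, Finset.univ_inter, Finset.prod_const]

/-- Job RND -/
theorem t_RND : S_RND := by
  intro V κ _ _ t k I D ht hk hsum
  classical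
  by_contra hcon
  push Not at hcon
  have hbl : ∀ i, ∃ E : ℕ → Finset V, (∀ j, j < k → E j ⊆ D i ∧ (E j).card = (D i).card / k) ∧
      ∀ j j', j < k → j' < k → j ≠ j' → Disjoint (E j) (E j') := fun i =>
    blocks _ k (D i) (Nat.mul_div_le _ _)
  choose E hE hEd using hbl
  -- the bad colourings
  have hcov : (Finset.univ : Finset (V → Fin t)) ⊆ I.biUnion (fun i => (Finset.range k).biUnion
      (fun j => (Finset.univ : Finset (Fin t)).biUnion (fun a =>
        Finset.univ.filter (fun f : V → Fin t => ∀ v ∈ E i j, f v ≠ a)))) := by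
    intro f _
    obtain ⟨i, hi, a, ha⟩ := hcon f
    have h1 : ∃ j, j < k ∧ ∀ v ∈ E i j, f v ≠ a := by
      by_contra h
      push Not at h
      apply absurd ha
      rw [not_lt]
      obtain ⟨v0, -⟩ := h 0 (by omega)
      have hne0 : Nonempty V := ⟨v0⟩
      choose! v hv using h
      have h2 : (Finset.range k).card ≤ ((D i).filter (fun v => f v = a)).card := by
        refine Finset.card_le_card_of_injOn v ?_ ?_
        · intro j hj
          have hj' := Finset.mem_range.1 (Finset.mem_coe.1 hj)
          obtain ⟨h3, h4⟩ := hv j hj'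
          exact Finset.mem_coe.2 (Finset.mem_filter.2 ⟨(hE i j hj').1 h3, h4⟩)
        · intro j hj j' hj' hjj
          have hj1 := Finset.mem_range.1 (Finset.mem_coe.1 hj)
          have hj2 := Finset.mem_range.1 (Finset.mem_coe.1 hj')
          by_contra hne
          have h5 := hEd i j j' hj1 hj2 hne
          have h6 := (hv j hj1).1
          rw [hjj] at h6
          exact Finset.disjoint_left.1 h5 h6 (hv j' hj2).1
      rwa [Finset.card_range] at h2
    obtain ⟨j, hj, hj2⟩ := h1
    refine Finset.mem_biUnion.2 ⟨i, hi, Finset.mem_biUnion.2 ⟨j, Finset.mem_range.2 hj,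
      Finset.mem_biUnion.2 ⟨a, Finset.mem_univ _, Finset.mem_filter.2 ⟨Finset.mem_univ _, hj2⟩⟩⟩⟩
  have hc1 := Finset.card_le_card hcov
  have hc2 : ((I.biUnion (fun i => (Finset.range k).biUnion
      (fun j => (Finset.univ : Finset (Fin t)).biUnion (fun a =>
        Finset.univ.filter (fun f : V → Fin t => ∀ v ∈ E i j, f v ≠ a))))).card : ℝ) ≤
      ∑ i ∈ I, (t : ℝ) ^ Fintype.card V * ((t : ℝ) * k * (1 - 1 / (t : ℝ)) ^ ((D i).card / k)) := by
    have h1 : ∀ i ∈ I, ((((Finset.range k).biUnion
      (fun j => (Finset.univ : Finset (Fin t)).biUnion (fun a =>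
        Finset.univ.filter (fun f : V → Fin t => ∀ v ∈ E i j, f v ≠ a)))).card : ℕ) : ℝ) ≤
        (t : ℝ) ^ Fintype.card V * ((t : ℝ) * k * (1 - 1 / (t : ℝ)) ^ ((D i).card / k)) := by
      intro i _
      have h2 : ∀ j ∈ Finset.range k, ((((Finset.univ : Finset (Fin t)).biUnion (fun a =>
        Finset.univ.filter (fun f : V → Fin t => ∀ v ∈ E i j, f v ≠ a))).card : ℕ) : ℝ) ≤
        (t : ℝ) * ((t : ℝ) ^ Fintype.card V * (1 - 1 / (t : ℝ)) ^ ((D i).card / k)) := by
        intro j hj
        have hj' := Finset.mem_range.1 hj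
        have h3 : ((((Finset.univ : Finset (Fin t)).biUnion (fun a =>
          Finset.univ.filter (fun f : V → Fin t => ∀ v ∈ E i j, f v ≠ a))).card : ℕ) : ℝ) ≤
          ∑ a : Fin t, (((Finset.univ.filter
            (fun f : V → Fin t => ∀ v ∈ E i j, f v ≠ a)).card : ℕ) : ℝ) := by
          rw [← Nat.cast_sum]
          exact_mod_cast Finset.card_biUnion_le
        refine h3.trans (le_of_eq ?_)
        rw [Finset.sum_congr rfl (fun a _ => card_avoid t ht (E i j) a), Finset.sum_const,
          Finset.card_univ, Fintype.card_fin, nsmul_eq_mul, (hE i j hj').2]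
      have h4 : ((((Finset.range k).biUnion
        (fun j => (Finset.univ : Finset (Fin t)).biUnion (fun a =>
        Finset.univ.filter (fun f : V → Fin t => ∀ v ∈ E i j, f v ≠ a)))).card : ℕ) : ℝ) ≤
        ∑ j ∈ Finset.range k, ((((Finset.univ : Finset (Fin t)).biUnion (fun a =>
        Finset.univ.filter (fun f : V → Fin t => ∀ v ∈ E i j, f v ≠ a))).card : ℕ) : ℝ) := by
        rw [← Nat.cast_sum]
        exact_mod_cast Finset.card_biUnion_le
      refine h4.trans ((Finset.sum_le_sum h2).trans (le_of_eq ?_))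
      rw [Finset.sum_const, Finset.card_range, nsmul_eq_mul]
      ring
    refine le_trans ?_ (Finset.sum_le_sum h1)
    rw [← Nat.cast_sum]
    exact_mod_cast Finset.card_biUnion_le
  rw [← Finset.mul_sum] at hc2
  have hc3 : (((Finset.univ : Finset (V → Fin t)).card : ℕ) : ℝ) = (t : ℝ) ^ Fintype.card V := by
    rw [Finset.card_univ, Fintype.card_fun, Fintype.card_fin, Nat.cast_pow]
  have hc4 : (t : ℝ) ^ Fintype.card V ≤ (t : ℝ) ^ Fintype.card V *
      ∑ i ∈ I, (t : ℝ) * k * (1 - 1 / (t : ℝ)) ^ ((D i).card / k) := by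
    refine le_trans ?_ hc2
    rw [← hc3]
    exact_mod_cast hc1
  have htp : (0 : ℝ) < (t : ℝ) ^ Fintype.card V := by
    have : (0 : ℝ) < t := by exact_mod_cast ht
    positivity
  have h7 := mul_lt_mul_of_pos_left hsum htp
  rw [mul_one] at h7
  exact absurd hc4 (not_le.2 h7)

end Pool.Agent.Q275.PV
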