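import Pool.Agent.Q125.PV.Stm
import Mathlib.Analysis.SpecialFunctions.Exp
import Mathlib.Analysis.SpecialFunctions.Exponential
import Mathlib.Analysis.Complex.Exponential
import Mathlib.Tactic.Linarith
import Mathlib.Tactic.Ring
import Mathlib.Tactic.FieldSimp
import Mathlib.Tactic.Positivity

/-! # Project PV, job SUM -/

set_option autoImplicit false

namespace Pool.Agent.Q275.PV

open Finset Pool.Agent.Q125.PV

theorem tele (f : ℕ → ℝ) (a : ℕ) : ∀ b : ℕ, a ≤ b →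
    ∑ e ∈ Finset.Ico a b, (f e - f (e + 1)) = f a - f b := by
  intro b hb
  induction b, hb using Nat.le_induction with
  | base => simp
  | succ n hn ih =>
    rw [Finset.sum_Ico_succ_top hn, ih]
    ring

/-- partial summation -/
theorem sum_inv_sq {ι : Type} (I : Finset ι) (d : ι → ℕ) (N : ℕ) (hN : 1 ≤ N)
    (hd : ∀ i ∈ I, N ≤ d i)
    (hc : ∀ e : ℕ, (I.filter (fun i => d i ≤ e)).card ≤ 2 * e + 1) :
    ∑ i ∈ I, (1 : ℝ) / (d i : ℝ) ^ 2 ≤ (5 : ℝ) / (N : ℝ) := by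
  classical
  obtain ⟨E, hE⟩ : ∃ E : ℕ, N ≤ E ∧ ∀ i ∈ I, d i ≤ E := by
    refine ⟨N + ∑ i ∈ I, d i, Nat.le_add_right _ _, fun i hi => ?_⟩
    exact (Finset.single_le_sum (f := d) (fun _ _ => Nat.zero_le _) hi).trans (Nat.le_add_left _ _)
  obtain ⟨hNE, hE⟩ := hE
  let g : ℕ → ℝ := fun e => 1 / (e : ℝ) ^ 2
  have h1 : ∀ i ∈ I, 1 / (d i : ℝ) ^ 2 = g (E + 1) +
      ∑ e ∈ Finset.Ico N (E + 1), if d i ≤ e then g e - g (e + 1) else 0 := by
    intro i hi
    rw [← Finset.sum_filter]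
    have h2 : (Finset.Ico N (E + 1)).filter (fun e => d i ≤ e) = Finset.Ico (d i) (E + 1) := by
      ext e
      rw [Finset.mem_filter, Finset.mem_Ico, Finset.mem_Ico]
      have := hd i hi
      omega
    rw [h2, tele g _ _ (by have := hE i hi; omega)]
    ring
  rw [Finset.sum_congr rfl h1, Finset.sum_add_distrib, Finset.sum_const, nsmul_eq_mul,
    Finset.sum_comm]
  have h3 : ∀ e ∈ Finset.Ico N (E + 1), ∑ i ∈ I, (if d i ≤ e then g e - g (e + 1) else 0) ≤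
      5 * (1 / (e : ℝ) - 1 / ((e + 1 : ℕ) : ℝ)) := by
    intro e he
    rw [Finset.mem_Ico] at he
    have he0 : (0 : ℝ) < e := by
      have : 0 < e := by omega
      exact_mod_cast this
    rw [← Finset.sum_filter, Finset.sum_const, nsmul_eq_mul]
    have h4 : (((I.filter (fun i => d i ≤ e)).card : ℕ) : ℝ) ≤ 2 * e + 1 := by
      exact_mod_cast hc e
    have h5 : g e - g (e + 1) = (2 * e + 1) / ((e : ℝ) ^ 2 * (e + 1) ^ 2) := by
      change 1 / (e : ℝ) ^ 2 - 1 / ((e + 1 : ℕ) : ℝ) ^ 2 = _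
      push_cast
      field_simp
      ring
    have h6 : 0 ≤ g e - g (e + 1) := by
      rw [h5]
      positivity
    refine (mul_le_mul_of_nonneg_right h4 h6).trans ?_
    rw [h5]
    push_cast
    have h7 : 5 * (1 / (e : ℝ) - 1 / (e + 1)) - (2 * e + 1) * ((2 * e + 1) / ((e : ℝ) ^ 2 * (e + 1) ^ 2))
        = (e * (e + 1) - 1) / ((e : ℝ) ^ 2 * (e + 1) ^ 2) := by
      field_simp
      ring
    have h8 : (1 : ℝ) ≤ e := by
      have : 1 ≤ e := by omega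
      exact_mod_cast this
    have h9 : 0 ≤ (e * (e + 1) - 1) / ((e : ℝ) ^ 2 * (e + 1) ^ 2) := by
      apply div_nonneg
      · nlinarith
      · positivity
    linarith
  have h10 := Finset.sum_le_sum h3
  rw [← Finset.mul_sum, tele (fun e => 1 / (e : ℝ)) N (E + 1) (by omega)] at h10
  have h11 : ((I.card : ℕ) : ℝ) ≤ 2 * E + 1 := by
    have h12 : I.filter (fun i => d i ≤ E) = I := Finset.filter_true_of_mem hE
    have h13 := hc E
    rw [h12] at h13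
    exact_mod_cast h13
  have h14 : ((I.card : ℕ) : ℝ) * g (E + 1) ≤ 5 * (1 / ((E + 1 : ℕ) : ℝ)) := by
    change ((I.card : ℕ) : ℝ) * (1 / ((E + 1 : ℕ) : ℝ) ^ 2) ≤ _
    push_cast
    have hE0 : (0 : ℝ) < (E : ℝ) + 1 := by positivity
    have h15 : ((I.card : ℕ) : ℝ) * (1 / ((E : ℝ) + 1) ^ 2) ≤ (2 * E + 1) * (1 / ((E : ℝ) + 1) ^ 2) :=
      mul_le_mul_of_nonneg_right h11 (by positivity)
    refine h15.trans ?_
    have h16 : 5 * (1 / ((E : ℝ) + 1)) - (2 * E + 1) * (1 / ((E : ℝ) + 1) ^ 2) =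
        (3 * E + 4) / ((E : ℝ) + 1) ^ 2 := by
      field_simp
      ring
    have h17 : 0 ≤ (3 * (E : ℝ) + 4) / ((E : ℝ) + 1) ^ 2 := by positivity
    linarith
  have h18 : (5 : ℝ) / N = 5 * (1 / (N : ℝ)) := by ring
  rw [h18]
  linarith

/-- one term of the sum -/
theorem term_le {t k N D : ℕ} (ht : 1 ≤ t) (hk : 1 ≤ k) (hN : 10000 * (t * k) ^ 2 ≤ N)
    (hD : N ≤ D) : (t : ℝ) * k * (1 - 1 / (t : ℝ)) ^ (D / (2 * k)) ≤
      384 * ((t : ℝ) * k) ^ 4 / (N : ℝ) * (1 / (D : ℝ) ^ 2) := by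
  have htk : 1 ≤ t * k := Nat.one_le_iff_ne_zero.2 (Nat.mul_ne_zero (by omega) (by omega))
  have hkk : k ≤ t * k := Nat.le_mul_of_pos_left k (by omega)
  have hN1 : 4 * k ≤ N := by nlinarith
  have hN0 : 0 < N := by omega
  have ht0 : (0 : ℝ) < t := by exact_mod_cast ht
  have hk0 : (0 : ℝ) < k := by exact_mod_cast hk
  have hNr : (0 : ℝ) < N := by exact_mod_cast hN0
  have hDr : (N : ℝ) ≤ D := by exact_mod_cast hD
  have hD0 : (0 : ℝ) < D := lt_of_lt_of_le hNr hDr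
  obtain ⟨m, hm⟩ : ∃ m, m = D / (2 * k) := ⟨_, rfl⟩
  rw [← hm]
  have h1 : D < 2 * k * (m + 1) := by
    rw [hm]
    exact Nat.lt_mul_div_succ D (by omega)
  have h2 : (D : ℝ) < 2 * k * (m + 1) := by exact_mod_cast h1
  have h3 : (4 : ℝ) * k ≤ D := by
    have : 4 * k ≤ D := by omega
    exact_mod_cast this
  have h4 : (D : ℝ) / (4 * k) ≤ m := by
    rw [div_le_iff₀ (by positivity)]
    nlinarith
  obtain ⟨x, hx⟩ : ∃ x : ℝ, x = (D : ℝ) / (4 * k * t) := ⟨_, rfl⟩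
  have hx0 : 0 < x := by rw [hx]; positivity
  have h5 : (1 - 1 / (t : ℝ)) ^ m ≤ Real.exp (-x) := by
    have h6 : 0 ≤ 1 - 1 / (t : ℝ) := by
      have : 1 / (t : ℝ) ≤ 1 := by
        rw [div_le_one ht0]
        exact_mod_cast ht
      linarith
    have h7 : 1 - 1 / (t : ℝ) ≤ Real.exp (-(1 / (t : ℝ))) := by
      have := Real.add_one_le_exp (-(1 / (t : ℝ)))
      linarith
    refine (pow_le_pow_left₀ h6 h7 m).trans ?_
    rw [← Real.exp_nat_mul]
    apply Real.exp_le_exp.2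
    have h8 : x ≤ m * (1 / (t : ℝ)) := by
      rw [hx]
      have h9 : (D : ℝ) / (4 * k * t) = (D : ℝ) / (4 * k) * (1 / (t : ℝ)) := by
        field_simp
      rw [h9]
      exact mul_le_mul_of_nonneg_right h4 (by positivity)
    linarith
  have h10 : Real.exp (-x) ≤ 6 / x ^ 3 := by
    have h11 := Real.pow_div_factorial_le_exp x hx0.le 3
    have h12 : ((Nat.factorial 3 : ℕ) : ℝ) = 6 := by norm_num [Nat.factorial]
    rw [h12] at h11
    rw [Real.exp_neg, inv_eq_one_div, div_le_div_iff₀ (Real.exp_pos x) (by positivity)]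
    have h13 : x ^ 3 ≤ 6 * Real.exp x := by
      rw [div_le_iff₀ (by norm_num)] at h11
      linarith
    linarith
  have h14 : 6 / x ^ 3 = 384 * ((t : ℝ) * k) ^ 3 / (D : ℝ) ^ 3 := by
    rw [hx]
    field_simp
    ring
  have h15 : (t : ℝ) * k * (1 - 1 / (t : ℝ)) ^ m ≤ t * k * (384 * ((t : ℝ) * k) ^ 3 / (D : ℝ) ^ 3) := by
    refine mul_le_mul_of_nonneg_left ?_ (by positivity)
    rw [← h14]
    exact h5.trans h10
  refine h15.trans ?_
  have h16 : (t : ℝ) * k * (384 * ((t : ℝ) * k) ^ 3 / (D : ℝ) ^ 3) =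
      384 * ((t : ℝ) * k) ^ 4 / (D : ℝ) * (1 / (D : ℝ) ^ 2) := by
    field_simp
  rw [h16]
  refine mul_le_mul_of_nonneg_right ?_ (by positivity)
  exact div_le_div_of_nonneg_left (by positivity) hNr hDr

/-- Job SUM -/
theorem t_SUM : S_SUM := by
  intro ι I d t k N ht hk hN hd hc
  have htk : 1 ≤ t * k := Nat.one_le_iff_ne_zero.2 (Nat.mul_ne_zero (by omega) (by omega))
  have hN1 : 1 ≤ N := by nlinarith
  have hNr : (0 : ℝ) < N := by exact_mod_cast hN1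
  have h1 := Finset.sum_le_sum (s := I) (fun i hi => term_le ht hk hN (hd i hi))
  refine h1.trans ?_
  rw [← Finset.mul_sum]
  have h2 := sum_inv_sq I d N hN1 hd hc
  have h3 : 384 * ((t : ℝ) * k) ^ 4 / (N : ℝ) * ∑ i ∈ I, 1 / (d i : ℝ) ^ 2 ≤
      384 * ((t : ℝ) * k) ^ 4 / (N : ℝ) * (5 / N) :=
    mul_le_mul_of_nonneg_left h2 (by positivity)
  refine h3.trans ?_
  have h4 : (10000 : ℝ) * ((t : ℝ) * k) ^ 2 ≤ N := by exact_mod_cast hN
  have h5 : 384 * ((t : ℝ) * k) ^ 4 / (N : ℝ) * (5 / N) = 1920 * ((t : ℝ) * k) ^ 4 / (N : ℝ) ^ 2 := by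
    field_simp
    ring
  rw [h5, div_le_iff₀ (by positivity)]
  have h6 : (0 : ℝ) ≤ ((t : ℝ) * k) ^ 2 := by positivity
  have h7 : (10000 * ((t : ℝ) * k) ^ 2) ^ 2 ≤ (N : ℝ) ^ 2 := pow_le_pow_left₀ (by positivity) h4 2
  nlinarith

end Pool.Agent.Q275.PV
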